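import Pool.Agent.TH280.MZ.Nec6

/-!
# Weights for the Hilbert transform on functions of mean zero

Fix `1 < p < ∞`. A weight `U` satisfies `∫ |Hf|^p U ≤ C ∫ |f|^p U` for all integrable `f` of mean
zero exactly when one of the following three weights is in the Muckenhoupt class `A_p`:
`U`, or `(1 + |x|)^{-p} U`, or `|x - x₀|^{-p} U` for some real `x₀`.

The definitions are in `Pool/Agent/TH280/MZ/Defs.lean`.
-/

set_option autoImplicit false
open MeasureTheory
open Pool.Agent.TH280.MZ

namespace Pool.Agent.Results.MP_945c9c_an.MeanZeroWeights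

theorem result (p : ℝ) (hp : 1 < p) (U : ℝ → ℝ) (hU : IsWeight U) :
    (Admissible ℝ p U ↔
      (MemAp p U ∨ MemAp p (fun x => U x / (1 + |x|) ^ p) ∨
        ∃ x₀ : ℝ, MemAp p (fun x => U x / |x - x₀| ^ p))) ∧
    (Admissible ℂ p U ↔
      (MemAp p U ∨ MemAp p (fun x => U x / (1 + |x|) ^ p) ∨
        ∃ x₀ : ℝ, MemAp p (fun x => U x / |x - x₀| ^ p))) := by
  refine ⟨main hp hU, ?_⟩
  rw [← main hp hU]
  exact ⟨adm_real, adm_complex hp hU.measurable⟩

end Pool.Agent.Results.MP_945c9c_an.MeanZeroWeights
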